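import Pool.Agent.BEO.Stmts

/-!
# Squad BEO, row FIO: decomposition of the polynomials (port of `Helper1_BEB/FIS.lean`)
-/

set_option autoImplicit false

namespace Pool.Agent.BEO.H77

open MvPolynomial Pool.Agent.BEO

noncomputable section

variable {d : ℕ}

/-- the span in degree n -/
def Sn (d n : ℕ) : Submodule ℝ (Pl d) :=
  Submodule.span ℝ {Q : Pl d | ∃ (b l : ℕ) (H : Pl d), 2 * b + l = n ∧ Har l H ∧
    Q = rho d ^ b * H}

theorem rho_hom : (rho d).IsHomogeneous 2 := by
  unfold rho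
  apply IsHomogeneous.sum
  intro i _
  have h := (isHomogeneous_X ℝ i).pow 2
  simpa using h

theorem lap_hom {n : ℕ} {P : Pl d} (h : P.IsHomogeneous n) : (lap P).IsHomogeneous (n - 2) := by
  unfold lap
  apply IsHomogeneous.sum
  intro i _
  have h2 := (h.pderiv (i := i)).pderiv (i := i)
  rwa [Nat.sub_sub] at h2

theorem lap_add (P Q : Pl d) : lap (P + Q) = lap P + lap Q := by
  unfold lap
  simp only [map_add, Finset.sum_add_distrib]

theorem lap_zero : lap (0 : Pl d) = 0 := by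
  unfold lap
  simp only [map_zero, Finset.sum_const_zero]

theorem lap_smul (c : ℝ) (P : Pl d) : lap (c • P) = c • lap P := by
  unfold lap
  rw [Finset.smul_sum]
  apply Finset.sum_congr rfl
  intro i _
  rw [Derivation.map_smul, Derivation.map_smul]

theorem lap_sub (P Q : Pl d) : lap (P - Q) = lap P - lap Q := by
  unfold lap
  simp only [map_sub, Finset.sum_sub_distrib]

theorem Sn_hom {n : ℕ} {Q : Pl d} (hQ : Q ∈ Sn d n) : Q.IsHomogeneous n := by
  unfold Sn at hQ
  induction hQ using Submodule.span_induction with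
  | mem x hx =>
    obtain ⟨b, l, H, hbl, hH, rfl⟩ := hx
    have h := (rho_hom.pow b).mul hH.1
    rwa [hbl] at h
  | zero => exact isHomogeneous_zero _ _ _
  | add x y _ _ h1 h2 => exact h1.add h2
  | smul c x _ h1 =>
    rw [smul_eq_C_mul]
    have h := (isHomogeneous_C (Fin d) c).mul h1
    rwa [zero_add] at h

theorem Sn_lap (lpo : LpoStmt) (hd : 1 ≤ d) {n : ℕ} {Q : Pl d} (hQ : Q ∈ Sn d n) :
    ∃ q ∈ Sn d (n + 2), lap q = Q := by
  unfold Sn at hQ
  have hd1 : (1 : ℝ) ≤ d := by exact_mod_cast hd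
  induction hQ using Submodule.span_induction with
  | mem x hx =>
    obtain ⟨b, l, H, hbl, hH, rfl⟩ := hx
    have hb0 : (0 : ℝ) ≤ b := Nat.cast_nonneg b
    have hl0 : (0 : ℝ) ≤ l := Nat.cast_nonneg l
    have hk : (2 * ((b : ℝ) + 1) * (2 * ((b : ℝ) + 1) + 2 * l + d - 2)) ≠ 0 := by
      have h1 : 0 < 2 * ((b : ℝ) + 1) := by linarith
      have h2 : 0 < 2 * ((b : ℝ) + 1) + 2 * l + d - 2 := by linarith
      exact (mul_pos h1 h2).ne'
    refine ⟨(2 * ((b : ℝ) + 1) * (2 * ((b : ℝ) + 1) + 2 * l + d - 2))⁻¹ •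
      (rho d ^ (b + 1) * H), ?_, ?_⟩
    · apply Submodule.smul_mem
      apply Submodule.subset_span
      exact ⟨b + 1, l, H, by omega, hH, rfl⟩
    · rw [lap_smul, lpo d l b H hH.1 hH.2, ← smul_eq_C_mul, smul_smul, inv_mul_cancel₀ hk,
        one_smul]
  | zero => exact ⟨0, Submodule.zero_mem _, lap_zero⟩
  | add x y _ _ h1 h2 =>
    obtain ⟨q1, hq1, e1⟩ := h1
    obtain ⟨q2, hq2, e2⟩ := h2
    exact ⟨q1 + q2, Submodule.add_mem _ hq1 hq2, by rw [lap_add, e1, e2]⟩
  | smul c x _ h1 =>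
    obtain ⟨q1, hq1, e1⟩ := h1
    exact ⟨c • q1, Submodule.smul_mem _ _ hq1, by rw [lap_smul, e1]⟩

theorem har_mem {n : ℕ} {P : Pl d} (hP : Har n P) : P ∈ Sn d n := by
  apply Submodule.subset_span
  exact ⟨0, n, P, by omega, hP, by rw [pow_zero, one_mul]⟩

theorem pderiv_hom_zero {P : Pl d} (h : P.IsHomogeneous 0) (i : Fin d) : pderiv i P = 0 := by
  have h1 : P.totalDegree = 0 := Nat.le_zero.mp h.totalDegree_le
  rw [totalDegree_eq_zero_iff_eq_C.mp h1]
  exact pderiv_C

theorem hom_mem (lpo : LpoStmt) (hd : 1 ≤ d) (n : ℕ) :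
    ∀ P : Pl d, P.IsHomogeneous n → P ∈ Sn d n := by
  induction n using Nat.strong_induction_on with
  | _ n ih =>
    intro P hP
    rcases n with _ | _ | n
    · apply har_mem
      refine ⟨hP, ?_⟩
      unfold lap
      apply Finset.sum_eq_zero
      intro i _
      rw [pderiv_hom_zero hP i, map_zero]
    · apply har_mem
      refine ⟨hP, ?_⟩
      unfold lap
      apply Finset.sum_eq_zero
      intro i _
      exact pderiv_hom_zero (hP.pderiv (i := i)) i
    · have h1 : lap P ∈ Sn d n := ih n (by omega) _ (lap_hom hP)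
      obtain ⟨q, hq, e⟩ := Sn_lap lpo hd h1
      have h2 : P - q ∈ Sn d (n + 2) := by
        apply har_mem
        refine ⟨?_, ?_⟩
        · rw [sub_eq_add_neg]
          exact hP.add (Sn_hom (Submodule.neg_mem _ hq))
        · rw [lap_sub, e, sub_self]
      have h3 : P = (P - q) + q := by ring
      rw [h3]
      exact Submodule.add_mem _ h2 hq

/-- **FIO** -/
theorem fio (lpo : LpoStmt) : FioStmt := by
  intro d P hd
  have h1 : ∀ n, Sn d n ≤ Submodule.span ℝ
      {Q : Pl d | ∃ (b l : ℕ) (H : Pl d), Har l H ∧ Q = rho d ^ b * H} := by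
    intro n
    apply Submodule.span_mono
    rintro Q ⟨b, l, H, -, hH, e⟩
    exact ⟨b, l, H, hH, e⟩
  rw [← sum_homogeneousComponent P]
  apply Submodule.sum_mem
  intro n _
  apply h1 n
  exact hom_mem lpo hd n _ (homogeneousComponent_isHomogeneous n P)

end

end Pool.Agent.BEO.H77
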